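import Pool.Agent.Q54.CC.Main

/-!
# All varieties
-/

set_option autoImplicit false

universe u v w x

namespace Q54.CC

open Q54.CU CategoryTheory Limits AlgebraicGeometry

variable {k : Type u} [Field k] {𝓜 : Type w} [Category.{v} 𝓜] [Abelian 𝓜] {I : 𝓜}
  {D : CycData.{u, v, w, x} k 𝓜 I}

/-- The sequence `Hom(I, H_(2 n)(Z, K(n))) → Hom(I, H_(2 n)(X, K(n))) → Hom(I, H_(2 n)(U, K(n))) → 0` is exact. -/
def InvExact {Z X U : SchO k} (h : HomSeq D Z X U) : Prop :=
  ∀ n : ℤ, (∀ y : I ⟶ D.H n 0 U, ∃ x : I ⟶ D.H n 0 X, x ≫ h.b n 0 = y) ∧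
    ∀ x : I ⟶ D.H n 0 X, x ≫ h.b n 0 = 0 → ∃ z : I ⟶ D.H n 0 Z, z ≫ h.a n 0 = x

/-- The localization sequences may be chosen such that the sequences of invariants are exact. In characteristic zero
this is a theorem of Jannsen: the weights of `H_(2 n)(X, K(n))` are at least `0`, and the part of weight `0` is
semisimple in the category of realizations of motives for absolute Hodge cycles. -/
def HasInvExact (D : CycData.{u, v, w, x} k 𝓜 I) : Prop :=
  ∀ {Z X U : SchO k} (i : Z ⟶ X) (j : U ⟶ X), IsVar X → IsDecomp i j →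
    ∃ (c : ChowSeq D Z X U) (h : HomSeq D Z X U), c.IsExact ∧ h.IsExact ∧ IsCompat c h ∧ InvExact h

lemma IsVar.of_closed {Z X : SchO k} (i : Z ⟶ X) (hi : IsClosedImmersion i.left) (h : IsVar X) : IsVar Z := by
  refine ⟨h.ft.of_closed i hi, ?_⟩
  have := h.sep
  rw [← Over.w i]
  infer_instance

lemma IsVar.of_open {U X : SchO k} (j : U ⟶ X) (hj : IsOpenImmersion j.left) (h : IsVar X) : IsVar U := by
  refine ⟨h.ft.of_open j hj, ?_⟩
  have := h.sep
  rw [← Over.w j]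
  infer_instance

lemma surj_glue (hD : IsCycTheory D) (hE : HasInvExact D) {Z X U : SchO k} (i : Z ⟶ X) (j : U ⟶ X)
    (hX : IsVar X) (hd : IsDecomp i j) {n : ℤ} (hZ : Function.Surjective (D.c n 0 Z))
    (hU : Function.Surjective (D.c n 0 U)) : Function.Surjective (D.c n 0 X) := by
  obtain ⟨c, h, h1, -, h3, h4⟩ := hE i j hX hd
  have hneg : Subsingleton (D.A n (-1) Z) := hD.chow_neg n (-1) Z (IsVar.of_closed i hd.closed hX) (by omega)
  have hβ : Function.Surjective (c.β n (-1 + 1)) := fun u =>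
    ((h1 n (-1)).2.1 u).1 (Subsingleton.elim _ _)
  have hβ : Function.Surjective (c.β n 0) := hβ
  intro y
  obtain ⟨u, hu⟩ := hU (y ≫ h.b n 0)
  obtain ⟨x, rfl⟩ := hβ u
  have h6 : D.c n 0 U (c.β n 0 x) = D.c n 0 X x ≫ h.b n 0 := h3.cb n 0 x
  rw [h6] at hu
  obtain ⟨z, hz⟩ := (h4 n).2 (y - D.c n 0 X x) (by rw [Preadditive.sub_comp, hu, sub_self])
  obtain ⟨z', rfl⟩ := hZ z
  refine ⟨x + c.α n 0 z', ?_⟩
  have h5 : D.c n 0 X (c.α n 0 z') = D.c n 0 Z z' ≫ h.a n 0 := h3.ca n 0 z'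
  rw [D.c_add, h5, hz]
  abel

/-- **All varieties and cubic hypersurfaces.** -/
theorem all_varieties (hD : IsCycTheory D) (hE : HasInvExact D)
    (h : ∀ X : SchO k, IsVar X → IsAffine X.left → ∀ n : ℤ, Function.Surjective (D.c n 0 X)) (X : SchO k)
    (hX : IsVar X) (n : ℤ) : Function.Surjective (D.c n 0 X) := by
  have h1 := devissage (S := Spec (CommRingCat.of k))
    (fun X => IsVar X → ∀ n : ℤ, Function.Surjective (D.c n 0 X))
    (fun i j _ hd hZ hU hX n => surj_glue hD hE i j hX hd (hZ (IsVar.of_closed i hd.closed hX) n)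
      (hU (IsVar.of_open j hd.opn hX) n))
    (fun X _ ha hX n => h X hX ha n) X hX.ft
  exact h1 hX n

end Q54.CC
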