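import Pool.Agent.Q54.CC.Pos
import Mathlib.CategoryTheory.Linear.Basic
import Mathlib.LinearAlgebra.TensorProduct.Tower

/-!
# The group of classes of algebraic cycles and the order of the L-function
-/

set_option autoImplicit false

universe u v w x y

namespace Q54.CC

open Q54.CU CategoryTheory Limits AlgebraicGeometry
open scoped TensorProduct

section alg

variable {K : Type y} [Field K] {V V' : Type v} [AddCommGroup V] [Module K V] [AddCommGroup V'] [Module K V']

/-- The subgroup `B` of the vector space `V` over `K` is finitely generated, and the map `B ⊗ K ⟶ V` is bijective. -/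
def IsLattice (K : Type y) [Field K] {V : Type v} [AddCommGroup V] [Module K V] (B : AddSubgroup V) : Prop :=
  B.FG ∧ Function.Bijective (LinearMap.liftBaseChange K B.subtype.toIntLinearMap)

lemma isLattice_map (e : V ≃ₗ[K] V') (B : AddSubgroup V) (B' : AddSubgroup V')
    (h : B.map (e : V →+ V') = B') (hB : IsLattice K B) : IsLattice K B' := by
  subst h
  have hfg : (B.map (e : V →+ V')).FG := by
    classical
    obtain ⟨S, hS⟩ := hB.1
    refine ⟨S.image e, ?_⟩
    rw [← hS, AddMonoidHom.map_closure, Finset.coe_image]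
    rfl
  refine ⟨hfg, ?_⟩
  let ε : B ≃+ B.map (e : V →+ V') := B.equivMapOfInjective (e : V →+ V') e.injective
  let g : K ⊗[ℤ] B ≃ₗ[K] K ⊗[ℤ] (B.map (e : V →+ V')) :=
    TensorProduct.AlgebraTensorModule.congr (LinearEquiv.refl K K) ε.toIntLinearEquiv
  have h1 : ∀ t, LinearMap.liftBaseChange K (B.map (e : V →+ V')).subtype.toIntLinearMap (g t) =
      e (LinearMap.liftBaseChange K B.subtype.toIntLinearMap t) := by
    intro t
    induction t with
    | zero => simp only [map_zero]
    | add x y hx hy => simp only [map_add, hx, hy]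
    | tmul c b =>
      change LinearMap.liftBaseChange K (B.map (e : V →+ V')).subtype.toIntLinearMap (c ⊗ₜ ε b) = _
      rw [LinearMap.liftBaseChange_tmul, LinearMap.liftBaseChange_tmul, map_smul]
      rfl
  have h2 : (LinearMap.liftBaseChange K (B.map (e : V →+ V')).subtype.toIntLinearMap : _ → V') ∘ g =
      e ∘ LinearMap.liftBaseChange K B.subtype.toIntLinearMap := funext h1
  rw [← Function.Bijective.of_comp_iff _ g.bijective, h2]
  exact e.bijective.comp hB.2

end alg

variable {k : Type u} [Field k] {𝓜 : Type w} [Category.{v} 𝓜] [Abelian 𝓜] {I : 𝓜}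
  {D : CycData.{u, v, w, x} k 𝓜 I} {K : Type y} [Field K] [Linear K 𝓜]

/-- The group `B_n(X)` of the classes of algebraic cycles. -/
def classes (D : CycData.{u, v, w, x} k 𝓜 I) (n : ℤ) (X : SchO k) : AddSubgroup (I ⟶ D.H n 0 X) :=
  AddSubgroup.closure (Set.range (D.c n 0 X))

/-- The classes of algebraic cycles generate the vector space of invariants: the cycle class map is surjective after
the extension of scalars to `K`. -/
def IsSpanned (K : Type y) [Field K] [Linear K 𝓜] (D : CycData.{u, v, w, x} k 𝓜 I) (n : ℤ) (X : SchO k) : Prop :=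
  Submodule.span K (Set.range (D.c n 0 X)) = ⊤

/-- The assertion `Ord V m` (the L-function of the dual of `V` has order `m` at the point in question) depends on `V`
only up to isomorphism and does not change if a direct summand with positive weights is added to `V`. -/
structure IsOrder (D : CycData.{u, v, w, x} k 𝓜 I) (Ord : 𝓜 → ℤ → Prop) : Prop where
  iso : ∀ {V V' : 𝓜} (_ : V ≅ V') (m : ℤ), Ord V m → Ord V' m
  pos : ∀ (V N : 𝓜) (m : ℤ), IsPos D N → (Ord (dsum V N) m ↔ Ord V m)

/-- The group of classes of algebraic cycles has finite rank `m` and the order in question is `-m`. -/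
def HasOrder (D : CycData.{u, v, w, x} k 𝓜 I) (Ord : 𝓜 → ℤ → Prop) (n : ℤ) (X : SchO k) : Prop :=
  ∃ m : ℕ, Module.rank ℤ (classes D n X) = m ∧ Ord (D.H n 0 X) (-m)

/-- The isomorphism of the spaces of invariants is linear. -/
lemma SameP.lin (hD : IsCycTheory D) {n n' : ℤ} {X Y : SchO k} (h : SameP D n X n' Y) :
    ∃ b : (I ⟶ D.H n 0 X) ≃ₗ[K] (I ⟶ D.H n' 0 Y), b '' Set.range (D.c n 0 X) = Set.range (D.c n' 0 Y) := by
  obtain ⟨N, a, e, hN, h⟩ := h
  let b : (I ⟶ D.H n 0 X) ≃ₗ[K] (I ⟶ D.H n' 0 Y) :=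
    { toFun := fun f => f ≫ e.hom ≫ biprod.fst
      invFun := fun g => g ≫ biprod.inl ≫ e.inv
      left_inv := fun f => by
        have h1 : f ≫ e.hom ≫ biprod.snd = 0 := hN.hom hD _
        have h2 : f ≫ e.hom = (f ≫ e.hom ≫ biprod.fst) ≫ biprod.inl := by
          apply biprod.hom_ext
          · simp
          · simpa using h1
        change (f ≫ e.hom ≫ biprod.fst) ≫ biprod.inl ≫ e.inv = f
        rw [← Category.assoc, ← h2, Category.assoc, e.hom_inv_id, Category.comp_id]
      right_inv := fun g => by simp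
      map_add' := fun f g => by rw [Preadditive.add_comp]
      map_smul' := fun c f => Linear.smul_comp _ _ _ _ _ _ }
  have hb : ∀ x, b (D.c n 0 X x) = D.c n' 0 Y (a x) := by
    intro x
    change D.c n 0 X x ≫ e.hom ≫ biprod.fst = _
    rw [← Category.assoc, h, biprod.lift_fst]
  refine ⟨b, ?_⟩
  ext y
  constructor
  · rintro ⟨_, ⟨x, rfl⟩, rfl⟩
    exact ⟨a x, (hb x).symm⟩
  · rintro ⟨y, rfl⟩
    refine ⟨_, ⟨a.symm y, rfl⟩, ?_⟩
    rw [hb, AddEquiv.apply_symm_apply]

lemma spanned_of {n n' : ℤ} {X Y : SchO k} (b : (I ⟶ D.H n 0 X) ≃ₗ[K] (I ⟶ D.H n' 0 Y))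
    (h : b '' Set.range (D.c n 0 X) = Set.range (D.c n' 0 Y)) (h1 : IsSpanned K D n X) : IsSpanned K D n' Y := by
  have h2 := congrArg (Submodule.map (b : (I ⟶ D.H n 0 X) →ₗ[K] (I ⟶ D.H n' 0 Y))) h1
  rw [Submodule.map_span, Submodule.map_top, LinearMap.range_eq_top.2 b.surjective] at h2
  have h3 : (b : (I ⟶ D.H n 0 X) →ₗ[K] (I ⟶ D.H n' 0 Y)) '' Set.range (D.c n 0 X) =
      Set.range (D.c n' 0 Y) := h
  rwa [h3] at h2

lemma classes_map {n n' : ℤ} {X Y : SchO k} (b : (I ⟶ D.H n 0 X) ≃ₗ[K] (I ⟶ D.H n' 0 Y))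
    (h : b '' Set.range (D.c n 0 X) = Set.range (D.c n' 0 Y)) :
    (classes D n X).map (b : (I ⟶ D.H n 0 X) →+ (I ⟶ D.H n' 0 Y)) = classes D n' Y := by
  rw [classes, classes, AddMonoidHom.map_closure]
  congr 1

lemma symm_image {n n' : ℤ} {X Y : SchO k} (b : (I ⟶ D.H n 0 X) ≃ₗ[K] (I ⟶ D.H n' 0 Y))
    (h : b '' Set.range (D.c n 0 X) = Set.range (D.c n' 0 Y)) :
    b.symm '' Set.range (D.c n' 0 Y) = Set.range (D.c n 0 X) := by
  rw [← h, ← Set.image_comp]
  have : (b.symm ∘ b : (I ⟶ D.H n 0 X) → _) = id := funext b.symm_apply_apply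
  rw [this, Set.image_id]

variable (K)

lemma SameP.spanned (hD : IsCycTheory D) {n n' : ℤ} {X Y : SchO k} (h : SameP D n X n' Y) :
    IsSpanned K D n X ↔ IsSpanned K D n' Y := by
  obtain ⟨b, hb⟩ := h.lin (K := K) hD
  exact ⟨spanned_of b hb, spanned_of b.symm (symm_image b hb)⟩

lemma SameP.lattice (hD : IsCycTheory D) {n n' : ℤ} {X Y : SchO k} (h : SameP D n X n' Y) :
    IsLattice K (classes D n X) ↔ IsLattice K (classes D n' Y) := by
  obtain ⟨b, hb⟩ := h.lin (K := K) hD
  exact ⟨isLattice_map b _ _ (classes_map b hb), isLattice_map b.symm _ _ (classes_map b.symm (symm_image b hb))⟩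

include K in
lemma SameP.rank (hD : IsCycTheory D) {n n' : ℤ} {X Y : SchO k} (h : SameP D n X n' Y) :
    Module.rank ℤ (classes D n X) = Module.rank ℤ (classes D n' Y) := by
  obtain ⟨b, hb⟩ := h.lin (K := K) hD
  rw [← classes_map b hb]
  exact ((classes D n X).equivMapOfInjective (b : (I ⟶ D.H n 0 X) →+ (I ⟶ D.H n' 0 Y))
    b.injective).toIntLinearEquiv.rank_eq

include K in
lemma SameP.order (hD : IsCycTheory D) {Ord : 𝓜 → ℤ → Prop} (hO : IsOrder D Ord) {n n' : ℤ} {X Y : SchO k}
    (h : SameP D n X n' Y) : HasOrder D Ord n X ↔ HasOrder D Ord n' Y := by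
  have h1 := h.rank K hD
  obtain ⟨N, a, e, hN, -⟩ := h
  have h2 : ∀ m : ℤ, Ord (D.H n 0 X) m ↔ Ord (D.H n' 0 Y) m := fun m =>
    ⟨fun h => (hO.pos _ _ _ hN).1 (hO.iso e m h), fun h => hO.iso e.symm m ((hO.pos _ _ _ hN).2 h)⟩
  refine exists_congr fun m => ?_
  rw [h1, h2]

end Q54.CC
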