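import Pool.Agent.Q54.CU.Rg

/-!
# Higher Chow groups, Borel-Moore homology and cycle class maps: definitions
-/

set_option autoImplicit false

universe u v w x

namespace Q54.CC

open Q54.CU CategoryTheory Limits AlgebraicGeometry Polynomial

/-- The data of a theory of higher Chow groups and of a homology theory for the schemes over `k`.
`A n s X` stands for the group `CH_n(X, s)` (Bloch's higher Chow groups, indexed by dimension);
`H n s X` stands for the Borel-Moore homology `H_(2 n + s)(X, K(n))`, an object of an abelian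
category `𝓜` (mixed Hodge structures, or representations of a Galois group) with unit object `I`;
and `c` is the cycle class map (regulator) from `CH_n(X, s)` to the group
`Hom(I, H_(2 n + s)(X, K(n)))` of Hodge classes or of Galois invariants. -/
structure CycData (k : Type u) [Field k] (𝓜 : Type w) [Category.{v} 𝓜] [Abelian 𝓜] (I : 𝓜) where
  A : ℤ → ℤ → SchO k → Type x
  [grp : ∀ n s X, AddCommGroup (A n s X)]
  H : ℤ → ℤ → SchO k → 𝓜
  c : ∀ n s X, A n s X → (I ⟶ H n s X)
  c_add : ∀ n s X x y, c n s X (x + y) = c n s X x + c n s X y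

attribute [instance] CycData.grp

/-- The value of a homomorphism. -/
abbrev ev {A B : Type x} [AddCommGroup A] [AddCommGroup B] (f : A →+ B) (x : A) : B := f x

/-- The value of an isomorphism. -/
abbrev ap {A B : Type x} [AddCommGroup A] [AddCommGroup B] (a : A ≃+ B) (x : A) : B := a x

/-- Exactness of homomorphisms of abelian groups. -/
abbrev ExAdd {A B C : Type x} [AddCommGroup A] [AddCommGroup B] [AddCommGroup C] (f : A →+ B)
    (g : B →+ C) : Prop :=
  Function.Exact f g

variable {k : Type u} [Field k] {𝓜 : Type w} [Category.{v} 𝓜] [Abelian 𝓜] {I : 𝓜}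

/-- Maps of a localization sequence `A_n(Z, s) → A_n(X, s) → A_n(U, s) → A_n(Z, s - 1)` of the first
theory. -/
structure ChowSeq (D : CycData.{u, v, w, x} k 𝓜 I) (Z X U : SchO k) where
  α : ∀ n s, D.A n s Z →+ D.A n s X
  β : ∀ n s, D.A n s X →+ D.A n s U
  δ : ∀ n s, D.A n (s + 1) U →+ D.A n s Z

/-- The sequence is exact. -/
def ChowSeq.IsExact {D : CycData.{u, v, w, x} k 𝓜 I} {Z X U : SchO k} (c : ChowSeq D Z X U) :
    Prop :=
  ∀ n s, ExAdd (c.α n s) (c.β n s) ∧ ExAdd (c.β n (s + 1)) (c.δ n s) ∧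
    ExAdd (c.δ n s) (c.α n s)

/-- Maps of a localization sequence `H_n(Z, s) → H_n(X, s) → H_n(U, s) → H_n(Z, s - 1)` of the second
theory. -/
structure HomSeq (D : CycData.{u, v, w, x} k 𝓜 I) (Z X U : SchO k) where
  a : ∀ n s, D.H n s Z ⟶ D.H n s X
  b : ∀ n s, D.H n s X ⟶ D.H n s U
  d : ∀ n s, D.H n (s + 1) U ⟶ D.H n s Z

/-- The sequence is exact. -/
def HomSeq.IsExact {D : CycData.{u, v, w, x} k 𝓜 I} {Z X U : SchO k} (h : HomSeq D Z X U) : Prop :=
  ∀ n s, ExactAt (h.a n s) (h.b n s) ∧ ExactAt (h.b n (s + 1)) (h.d n s) ∧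
    ExactAt (h.d n s) (h.a n s)

/-- The cycle class maps are compatible with the maps of the two localization sequences. -/
structure IsCompat {D : CycData.{u, v, w, x} k 𝓜 I} {Z X U : SchO k} (c : ChowSeq D Z X U)
    (h : HomSeq D Z X U) : Prop where
  ca : ∀ n s z, D.c n s X (ev (c.α n s) z) = D.c n s Z z ≫ h.a n s
  cb : ∀ n s x, D.c n s U (ev (c.β n s) x) = D.c n s X x ≫ h.b n s
  cd : ∀ n s y, D.c n s Z (ev (c.δ n s) y) = D.c n (s + 1) U y ≫ h.d n s

/-- The localization sequences of both theories for a closed subscheme `Z` of `X` with complement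
`U`, and their compatibility with the cycle class maps. -/
def HasLocalization (D : CycData.{u, v, w, x} k 𝓜 I) (Z X U : SchO k) : Prop :=
  ∃ (c : ChowSeq D Z X U) (h : HomSeq D Z X U), c.IsExact ∧ h.IsExact ∧ IsCompat c h

/-- The groups `A n s X` and `A n' s' Y` and the objects `H n s X` and `H n' s' Y` are isomorphic,
compatibly with the cycle class maps. -/
def HasIso (D : CycData.{u, v, w, x} k 𝓜 I) (n s : ℤ) (X : SchO k) (n' s' : ℤ) (Y : SchO k) :
    Prop :=
  ∃ (a : D.A n s X ≃+ D.A n' s' Y) (e : D.H n s X ≅ D.H n' s' Y),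
    ∀ x, D.c n' s' Y (ap a x) = D.c n s X x ≫ e.hom

/-- The direct sum of `X` and `Y`. -/
noncomputable abbrev dsum (X Y : 𝓜) : 𝓜 := X ⊞ Y

/-- The morphism to the direct sum with components `f` and `g`. -/
noncomputable abbrev pair {W X Y : 𝓜} (f : W ⟶ X) (g : W ⟶ Y) : W ⟶ dsum X Y :=
  biprod.lift f g

/-- The groups `A n s X` and the objects `H n s X` are direct sums of those for `n₁, s₁, Y₁` and for
`n₂, s₂, Y₂`, compatibly with the cycle class maps. -/
def HasSum (D : CycData.{u, v, w, x} k 𝓜 I) (n s : ℤ) (X : SchO k) (n₁ s₁ : ℤ) (Y₁ : SchO k)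
    (n₂ s₂ : ℤ) (Y₂ : SchO k) : Prop :=
  ∃ (a : D.A n s X ≃+ D.A n₁ s₁ Y₁ × D.A n₂ s₂ Y₂)
    (e : D.H n s X ≅ dsum (D.H n₁ s₁ Y₁) (D.H n₂ s₂ Y₂)),
    ∀ x, D.c n s X x ≫ e.hom = pair (D.c n₁ s₁ Y₁ (ap a x).1) (D.c n₂ s₂ Y₂ (ap a x).2)

/-- The affine scheme `Spec B`. -/
noncomputable def specO (k : Type u) [Field k] (B : Type u) [CommRing B] [Algebra k B] : SchO k :=
  Over.mk (Spec.map (CommRingCat.ofHom (algebraMap k B)))

/-- The product of `Spec B` and the torus `𝔾ₘ`. -/
noncomputable def torO (k : Type u) [Field k] (B : Type u) [CommRing B] [Algebra k B] : SchO k :=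
  specO k (Localization.Away (X : B[X]))

/-- The formal properties of higher Chow groups and of Borel-Moore homology: localization sequences,
homotopy invariance for affine bundles, the formula for the product with `𝔾ₘ`, `CH_n(X, s) = 0` for
`s < 0`, `CH_n(Spec k, s) = 0` for `n + s < 0`, `H_i(Spec k) = 0` for `i ≠ 0`, and
`Hom(I, H_(2 n + s)(X, K(n))) = 0` for `s < 0` (the weights of `H_(2 n + s)(X, K(n))` are at least
`-s`). -/
structure IsCycTheory (D : CycData.{u, v, w, x} k 𝓜 I) : Prop where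
  localization : ∀ {Z X U : SchO k} (i : Z ⟶ X) (j : U ⟶ X), IsVar X → IsDecomp i j →
    HasLocalization D Z X U
  homotopy : ∀ {E B : SchO k} (r : ℕ) (p : E ⟶ B), IsVar E → IsVar B → IsAffineBundle r p.left →
    ∀ n s, HasIso D n s B (n + r) s E
  torus : ∀ (B : Type u) [CommRing B] [Algebra k B], Algebra.FiniteType k B → ∀ n s,
    HasSum D n s (torO k B) (n - 1) s (specO k B) n (s - 1) (specO k B)
  chow_neg : ∀ n s X, IsVar X → s < 0 → Subsingleton (D.A n s X)
  chow_pt : ∀ n s, n + s < 0 → Subsingleton (D.A n s (pt k))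
  hom_pt : ∀ n s, 2 * n + s ≠ 0 → IsZero (D.H n s (pt k))
  weights : ∀ n s X, IsVar X → s < 0 → ∀ f : I ⟶ D.H n s X, f = 0

end Q54.CC
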