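import Pool.Agent.Q54.CC.Defs

/-!
# Formal consequences
-/

set_option autoImplicit false

universe u v w x

namespace Q54.CC

open Q54.CU CategoryTheory Limits AlgebraicGeometry

variable {k : Type u} [Field k] {𝓜 : Type w} [Category.{v} 𝓜] [Abelian 𝓜] {I : 𝓜}
  {D : CycData.{u, v, w, x} k 𝓜 I}

lemma HasIso.symm {n s n' s' : ℤ} {X Y : SchO k} (h : HasIso D n s X n' s' Y) : HasIso D n' s' Y n s X := by
  obtain ⟨a, e, h⟩ := h
  refine ⟨a.symm, e.symm, fun y => ?_⟩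
  have := h (a.symm y)
  rw [ap, AddEquiv.apply_symm_apply] at this
  rw [this, Category.assoc, Iso.symm_hom, e.hom_inv_id, Category.comp_id]

lemma HasIso.trans {n s n' s' n'' s'' : ℤ} {X Y Z : SchO k} (h : HasIso D n s X n' s' Y)
    (h' : HasIso D n' s' Y n'' s'' Z) : HasIso D n s X n'' s'' Z := by
  obtain ⟨a, e, h⟩ := h
  obtain ⟨a', e', h'⟩ := h'
  refine ⟨a.trans a', e ≪≫ e', fun x => ?_⟩
  refine (h' (a x)).trans ?_
  rw [show D.c n' s' Y (a x) = _ from h x, Category.assoc]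
  rfl

lemma HasIso.sum {n s n' s' n₁ s₁ n₂ s₂ : ℤ} {X Y Y₁ Y₂ : SchO k} (h : HasIso D n s X n' s' Y)
    (h' : HasSum D n' s' Y n₁ s₁ Y₁ n₂ s₂ Y₂) : HasSum D n s X n₁ s₁ Y₁ n₂ s₂ Y₂ := by
  obtain ⟨a, e, h⟩ := h
  obtain ⟨a', e', h'⟩ := h'
  refine ⟨a.trans a', e ≪≫ e', fun x => ?_⟩
  refine Eq.trans ?_ (h' (a x))
  rw [show D.c n' s' Y (a x) = _ from h x, Category.assoc]
  rfl

lemma HasSum.iso₁ {n s n₁ s₁ n₂ s₂ n₁' s₁' : ℤ} {X Y₁ Y₂ Y₁' : SchO k} (h : HasSum D n s X n₁ s₁ Y₁ n₂ s₂ Y₂)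
    (h' : HasIso D n₁ s₁ Y₁ n₁' s₁' Y₁') : HasSum D n s X n₁' s₁' Y₁' n₂ s₂ Y₂ := by
  obtain ⟨a, e, h⟩ := h
  obtain ⟨a', e', h'⟩ := h'
  refine ⟨a.trans (a'.prodCongr (AddEquiv.refl _)), e ≪≫ biprod.mapIso e' (Iso.refl _), fun x => ?_⟩
  change D.c n s X x ≫ e.hom ≫ biprod.map e'.hom (𝟙 _) = biprod.lift (D.c _ _ _ (a' (a x).1)) (D.c _ _ _ (a x).2)
  rw [← Category.assoc, h, h']
  apply biprod.hom_ext <;> simp

lemma HasSum.iso₂ {n s n₁ s₁ n₂ s₂ n₂' s₂' : ℤ} {X Y₁ Y₂ Y₂' : SchO k} (h : HasSum D n s X n₁ s₁ Y₁ n₂ s₂ Y₂)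
    (h' : HasIso D n₂ s₂ Y₂ n₂' s₂' Y₂') : HasSum D n s X n₁ s₁ Y₁ n₂' s₂' Y₂' := by
  obtain ⟨a, e, h⟩ := h
  obtain ⟨a', e', h'⟩ := h'
  refine ⟨a.trans ((AddEquiv.refl _).prodCongr a'), e ≪≫ biprod.mapIso (Iso.refl _) e', fun x => ?_⟩
  change D.c n s X x ≫ e.hom ≫ biprod.map (𝟙 _) e'.hom = biprod.lift (D.c _ _ _ (a x).1) (D.c _ _ _ (a' (a x).2))
  rw [← Category.assoc, h, h']
  apply biprod.hom_ext <;> simp

/-- The localization sequence of a scheme whose groups vanish. -/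
theorem loc_iso (hD : IsCycTheory D) {Z X U : SchO k} (i : Z ⟶ X) (j : U ⟶ X) (hX : IsVar X)
    (hd : IsDecomp i j) (n s : ℤ) (a1 : Subsingleton (D.A n (s + 1) X)) (a0 : Subsingleton (D.A n s X))
    (z1 : IsZero (D.H n (s + 1) X)) (z0 : IsZero (D.H n s X)) : HasIso D n (s + 1) U n s Z := by
  obtain ⟨⟨α, β, δ⟩, ⟨a, b, d⟩, h1, h2, ⟨-, -, h5⟩⟩ := hD.localization i j hX hd
  have h5 : ∀ y : D.A n (s + 1) U, D.c n s Z (δ n s y) = D.c n (s + 1) U y ≫ d n s := fun y => h5 n s y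
  have hmono : Mono (d n s) := by
    obtain ⟨h, hex⟩ := (h2 n s).2.1
    exact hex.mono_g (z1.eq_of_src _ _)
  have hepi : Epi (d n s) := by
    obtain ⟨h, hex⟩ := (h2 n s).2.2
    exact hex.epi_f (z0.eq_of_tgt _ _)
  have hiso : IsIso (d n s) := isIso_of_mono_of_epi _
  have hsurj : Function.Surjective (δ n s) := fun z => ((h1 n s).2.2 z).1 (Subsingleton.elim _ _)
  have hinj : Function.Injective (δ n s) := by
    rw [injective_iff_map_eq_zero]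
    intro y hy
    obtain ⟨z, hz⟩ := ((h1 n s).2.1 y).1 hy
    rw [← hz, Subsingleton.elim z 0]
    exact map_zero (β n (s + 1))
  exact ⟨AddEquiv.ofBijective (δ n s) ⟨hinj, hsurj⟩, asIso (d n s), h5⟩

section space

/-- A scheme with an affine bundle over the point. -/
lemma chow_space (hD : IsCycTheory D) {X : SchO k} (hX : IsVar X) {M : ℕ} (p : X ⟶ pt k)
    (hp : IsAffineBundle M p.left) {n s : ℤ} (h : n + s < M) : Subsingleton (D.A n s X) := by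
  obtain ⟨a, -, -⟩ := hD.homotopy M p hX isVar_pt hp (n - M) s
  have h1 := hD.chow_pt (n - M) s (by omega)
  have h2 := a.symm.injective.subsingleton
  rwa [sub_add_cancel] at h2

lemma hom_space (hD : IsCycTheory D) {X : SchO k} (hX : IsVar X) {M : ℕ} (p : X ⟶ pt k)
    (hp : IsAffineBundle M p.left) {n s : ℤ} (h : 2 * n + s ≠ 2 * M) : IsZero (D.H n s X) := by
  obtain ⟨-, e, -⟩ := hD.homotopy M p hX isVar_pt hp (n - M) s
  have h1 := hD.hom_pt (n - M) s (by omega)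
  have h2 := h1.of_iso e.symm
  rwa [sub_add_cancel] at h2

/-- The complement of a closed subscheme of an affine space. -/
theorem space_iso (hD : IsCycTheory D) {X : SchO k} (hX : IsVar X) {M : ℕ} (p : X ⟶ pt k)
    (hp : IsAffineBundle M p.left) {Z U : SchO k} (i : Z ⟶ X) (j : U ⟶ X) (hd : IsDecomp i j) {n s : ℤ}
    (h : n + s + 1 < M) (h1 : 2 * n + s ≠ 2 * M) (h2 : 2 * n + s + 1 ≠ 2 * M) : HasIso D n (s + 1) U n s Z :=
  loc_iso hD i j hX hd n s (chow_space hD hX p hp (by omega)) (chow_space hD hX p hp (by omega))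
    (hom_space hD hX p hp (by omega)) (hom_space hD hX p hp h1)

end space

end Q54.CC
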