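import Pool.Agent.Q54.CC.Tg

/-!
# The hypersurfaces `∑ λ_j q_j(x) = 0`
-/

set_option autoImplicit false

universe u v w x

namespace Q54.CC

open Q54.CU CategoryTheory Limits AlgebraicGeometry

variable {k : Type u} [Field k] {𝓜 : Type w} [Category.{v} 𝓜] [Abelian 𝓜] {I : 𝓜}
  {D : CycData.{u, v, w, x} k 𝓜 I}

/-- The hypersurface `∑ λ_j q_j(x) = 1` and the closed subscheme `Z` given by the equations `q_j(x) = 0`. -/
theorem smooth_iso (hD : IsCycTheory D) {M r : ℕ} (q : Fin (r + 1) → MvPolynomial (Fin M) k) {Z : SchO k}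
    (i : Z ⟶ affO k M) (hd : IsDecomp i (cplInc q)) {n s : ℤ} (h : n + s + 1 < M)
    (h1 : 2 * n + s ≠ 2 * M) (h2 : 2 * n + s + 1 ≠ 2 * M) :
    HasIso D (n + r) (s + 1) (hypO q 1) n s Z :=
  (hD.homotopy r (hypO_to q) (isVar_hypO q 1) (isVar_cplO q) (hypO_to_bundle q) n (s + 1)).symm.trans
    (space_iso hD isVar_affO (affTo k M) (affStr_bundle k M) i (cplInc q) hd h h1 h2)

/-- **The cohomology of the hypersurface `∑ λ_j q_j(x) = 0`.** -/
theorem cone_sum (hD : IsCycTheory D) {M r : ℕ} (q : Fin (r + 1) → MvPolynomial (Fin M) k) {Z : SchO k}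
    (i : Z ⟶ affO k M) (hd : IsDecomp i (cplInc q)) {n s : ℤ} (hs : 0 ≤ s) (hn : n + s + 1 < M) :
    HasSum D (n + r + 1) s (hypO q 0) n s Z (n + 1) (s - 1) Z := by
  have e0 : HasIso D (n + r + 1) (s + 1) (torO k (HypRing q (1 : k))) (n + r + 1) s (specO k (HypRing q (0 : k))) := by
    refine space_iso hD isVar_amb (ambTo k M r) ambTo_bundle (inC q) (inO q) (isDecomp_cone q) ?_ ?_ ?_
    · push_cast
      omega
    · push_cast
      omega
    · push_cast
      omega
  have e1 := hD.torus (HypRing q (1 : k)) inferInstance (n + r + 1) (s + 1)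
  rw [← hypO_eq, add_sub_cancel_right, add_sub_cancel_right] at e1
  have e2 : HasIso D (n + r) (s + 1) (hypO q 1) n s Z :=
    smooth_iso hD q i hd hn (by omega) (by omega)
  have e3 : HasIso D (n + 1 + r) (s - 1 + 1) (hypO q 1) (n + 1) (s - 1) Z :=
    smooth_iso hD q i hd (by omega) (by omega) (by omega)
  rw [sub_add_cancel, add_right_comm] at e3
  rw [hypO_eq q 0]
  exact (e0.symm.sum (e1.iso₁ e2)).iso₂ e3

/-- The cycle groups of `X` in dimension `n` and of `Y` in dimension `n'` are isomorphic; the homology of `X` is the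
direct sum of the homology of `Y` and of an object without invariants; and these isomorphisms are compatible with the
cycle class maps. -/
def Same (D : CycData.{u, v, w, x} k 𝓜 I) (n : ℤ) (X : SchO k) (n' : ℤ) (Y : SchO k) : Prop :=
  ∃ (N : 𝓜) (a : D.A n 0 X ≃+ D.A n' 0 Y) (e : D.H n 0 X ≅ dsum (D.H n' 0 Y) N),
    (∀ f : I ⟶ N, f = 0) ∧ ∀ x, D.c n 0 X x ≫ e.hom = pair (D.c n' 0 Y (ap a x)) 0

/-- The same, where it is recorded that `N` is the homology of `Y` with the next twist. -/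
theorem cone_same (hD : IsCycTheory D) {M r : ℕ} (q : Fin (r + 1) → MvPolynomial (Fin M) k) {Z : SchO k}
    (hZ : IsVar Z) (i : Z ⟶ affO k M) (hd : IsDecomp i (cplInc q)) {n : ℤ} (hn : n + 1 < M) :
    ∃ (a : D.A (n + r + 1) 0 (hypO q 0) ≃+ D.A n 0 Z)
      (e : D.H (n + r + 1) 0 (hypO q 0) ≅ dsum (D.H n 0 Z) (D.H (n + 1) (-1) Z)),
      ∀ x, D.c (n + r + 1) 0 (hypO q 0) x ≫ e.hom = pair (D.c n 0 Z (ap a x)) 0 := by
  obtain ⟨a, e, h⟩ := cone_sum hD q i hd (n := n) (s := 0) le_rfl (by omega)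
  have h0 : Subsingleton (D.A (n + 1) (0 - 1) Z) := hD.chow_neg _ _ Z hZ (by omega)
  have hw := hD.weights (n + 1) (0 - 1) Z hZ (by omega)
  let p : D.A n 0 Z × D.A (n + 1) (0 - 1) Z ≃+ D.A n 0 Z :=
    { toFun := Prod.fst
      invFun := fun x => (x, 0)
      left_inv := fun x => Prod.ext rfl (Subsingleton.elim _ _)
      right_inv := fun x => rfl
      map_add' := fun x y => rfl }
  refine ⟨a.trans p, e, fun x => ?_⟩
  have h1 := h x
  rw [hw (D.c _ _ _ (a x).2)] at h1
  exact h1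

lemma cone_same' (hD : IsCycTheory D) {M r : ℕ} (q : Fin (r + 1) → MvPolynomial (Fin M) k) {Z : SchO k}
    (hZ : IsVar Z) (i : Z ⟶ affO k M) (hd : IsDecomp i (cplInc q)) {n : ℤ} (hn : n + 1 < M) :
    Same D (n + r + 1) (hypO q 0) n Z := by
  obtain ⟨a, e, h⟩ := cone_same hD q hZ i hd hn
  exact ⟨_, a, e, hD.weights (n + 1) (-1) Z hZ (by omega), h⟩

open ZeroObject in
lemma HasIso.same {n n' : ℤ} {X Y : SchO k} (h : HasIso D n 0 X n' 0 Y) : Same D n X n' Y := by
  obtain ⟨a, e, h⟩ := h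
  have hz : IsZero (0 : 𝓜) := isZero_zero 𝓜
  refine ⟨0, a, e ≪≫ isoBiprodZero hz, fun f => hz.eq_of_tgt _ _, fun x => ?_⟩
  rw [h]
  apply biprod.hom_ext <;> simp

/-- **Varieties and hypersurfaces.** A property `Q n X` of the cycles of dimension `n` on `X` that depends only on the
cycle class map holds for all quasi-projective schemes if it holds for the cubic hypersurfaces. -/
theorem main_prop (hD : IsCycTheory D) (Q : ℤ → SchO k → Prop)
    (hQ : ∀ n X n' Y, Same D n X n' Y → (Q n X ↔ Q n' Y)) :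
    List.TFAE
      [∀ (M r : ℕ) (q : Fin (r + 1) → MvPolynomial (Fin M) k), (∀ j, (q j).totalDegree ≤ 2) →
          ∀ n : ℤ, Q n (hypO q 0),
        ∀ X : SchO k, IsVar X → IsAffine X.left → ∀ n : ℤ, Q n X,
        ∀ X : SchO k, IsVar X → HasAffineTorsor X → ∀ n : ℤ, Q n X] := by
  tfae_have 1 → 2 := by
    intro h X hX ha n
    obtain ⟨M, r, q, i, hM, hq, hd⟩ := exists_decomp X hX.ft ha (n + 2).toNat
    have hn : n + 1 < M := by omega
    exact (hQ _ _ _ _ (cone_same' hD q hX i hd hn)).1 (h M r q hq _)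
  tfae_have 2 → 1 := fun h M r q _ n =>
    h (hypO q 0) (isVar_hypO q 0) (inferInstance : IsAffine (HypSch q (0 : k))) n
  tfae_have 2 → 3 := by
    rintro h X hX ⟨T, r, p, hT, ha, hp⟩ n
    exact (hQ _ _ _ _ (hD.homotopy r p hT hX hp n 0).same).2 (h T hT ha _)
  tfae_have 3 → 2 := fun h X hX ha n => h X hX (hasAffineTorsor_of_affine hX ha) n
  tfae_finish

section consequences

variable {n n' : ℤ} {X Y : SchO k}

/-- The map of classes. -/
lemma Same.maps (h : Same D n X n' Y) : ∃ (a : D.A n 0 X ≃+ D.A n' 0 Y) (b : (I ⟶ D.H n 0 X) ≃+ (I ⟶ D.H n' 0 Y)),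
    ∀ x, b (D.c n 0 X x) = D.c n' 0 Y (a x) := by
  obtain ⟨N, a, e, hN, h⟩ := h
  let b : (I ⟶ D.H n 0 X) ≃+ (I ⟶ D.H n' 0 Y) :=
    { toFun := fun f => f ≫ e.hom ≫ biprod.fst
      invFun := fun g => g ≫ biprod.inl ≫ e.inv
      left_inv := fun f => by
        have h1 : f ≫ e.hom ≫ biprod.snd = 0 := hN _
        have h2 : f ≫ e.hom = (f ≫ e.hom ≫ biprod.fst) ≫ biprod.inl := by
          apply biprod.hom_ext
          · simp
          · simpa using h1
        change (f ≫ e.hom ≫ biprod.fst) ≫ biprod.inl ≫ e.inv = f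
        rw [← Category.assoc, ← h2, Category.assoc, e.hom_inv_id, Category.comp_id]
      right_inv := fun g => by simp
      map_add' := fun f g => by rw [Preadditive.add_comp] }
  refine ⟨a, b, fun x => ?_⟩
  change D.c n 0 X x ≫ e.hom ≫ biprod.fst = _
  rw [← Category.assoc, h, biprod.lift_fst]

lemma Same.surj (h : Same D n X n' Y) :
    Function.Surjective (D.c n 0 X) ↔ Function.Surjective (D.c n' 0 Y) := by
  obtain ⟨a, b, h⟩ := h.maps
  have h1 : (b ∘ D.c n 0 X : D.A n 0 X → _) = D.c n' 0 Y ∘ a := funext h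
  constructor
  · intro hs
    have h2 : Function.Surjective (D.c n' 0 Y ∘ a) := h1 ▸ b.surjective.comp hs
    exact h2.of_comp
  · intro hs
    have h2 : Function.Surjective (b ∘ D.c n 0 X : D.A n 0 X → _) := h1 ▸ hs.comp a.surjective
    exact (EquivLike.comp_surjective _ b).1 h2

lemma Same.inj (h : Same D n X n' Y) :
    Function.Injective (D.c n 0 X) ↔ Function.Injective (D.c n' 0 Y) := by
  obtain ⟨a, b, h⟩ := h.maps
  have h1 : (b ∘ D.c n 0 X : D.A n 0 X → _) = D.c n' 0 Y ∘ a := funext h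
  constructor
  · intro hs
    have h2 : Function.Injective (D.c n' 0 Y ∘ a) := h1 ▸ b.injective.comp hs
    exact (EquivLike.injective_comp a _).1 h2
  · intro hs
    have h2 : Function.Injective (b ∘ D.c n 0 X : D.A n 0 X → _) := h1 ▸ hs.comp a.injective
    exact h2.of_comp

end consequences

end Q54.CC
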