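import Pool.Agent.Q54.CU.Rg

/-!
# Tensors and affine schemes

Every affine scheme of finite type is given by equations that are bilinear in `(1, x)` and `(1, y)`.
-/

set_option autoImplicit false

universe u

namespace Q54.CC

open Q54.CU MvPolynomial CategoryTheory AlgebraicGeometry

section alg

variable (R : Type u) [CommRing R] (M : ℕ)

/-- The elements `1, x_1, …, x_M`. -/
noncomputable def xs : Fin (M + 1) → MvPolynomial (Fin (M + M)) R :=
  Fin.cons 1 fun i => X (Fin.castAdd M i)

/-- The elements `1, y_1, …, y_M`. -/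
noncomputable def ys : Fin (M + 1) → MvPolynomial (Fin (M + M)) R :=
  Fin.cons 1 fun i => X (Fin.natAdd M i)

variable {R M}

/-- The polynomials `∑_{a, b} T_{a b j} x_a y_b` with `x_0 = y_0 = 1`. -/
noncomputable def tq {r : ℕ} (T : Fin (M + 1) → Fin (M + 1) → Fin (r + 1) → R) (j : Fin (r + 1)) :
    MvPolynomial (Fin (M + M)) R :=
  ∑ a, ∑ b, C (T a b j) * xs R M a * ys R M b

lemma totalDegree_X_le' {σ : Type} (i : σ) : (X i : MvPolynomial σ R).totalDegree ≤ 1 :=
  (totalDegree_monomial_le _ _).trans (by rw [Finsupp.sum_single_index rfl]; rfl)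

lemma totalDegree_xs (a : Fin (M + 1)) : (xs R M a).totalDegree ≤ 1 := by
  induction a using Fin.cases with
  | zero => rw [xs, Fin.cons_zero, totalDegree_one]; exact Nat.zero_le _
  | succ i => rw [xs, Fin.cons_succ]; exact totalDegree_X_le' _

lemma totalDegree_ys (a : Fin (M + 1)) : (ys R M a).totalDegree ≤ 1 := by
  induction a using Fin.cases with
  | zero => rw [ys, Fin.cons_zero, totalDegree_one]; exact Nat.zero_le _
  | succ i => rw [ys, Fin.cons_succ]; exact totalDegree_X_le' _

lemma totalDegree_tq {r : ℕ} (T : Fin (M + 1) → Fin (M + 1) → Fin (r + 1) → R) (j : Fin (r + 1)) :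
    (tq T j).totalDegree ≤ 2 := by
  refine totalDegree_finsetSum_le fun a _ => totalDegree_finsetSum_le fun b _ => ?_
  refine (totalDegree_mul _ _).trans ?_
  have h1 := totalDegree_mul (C (T a b j)) (xs R M a)
  have h2 := totalDegree_xs (R := R) a
  have h3 := totalDegree_ys (R := R) b
  rw [totalDegree_C] at h1
  omega

/-- Restriction to the diagonal. -/
noncomputable def dg (R : Type u) [CommRing R] (M : ℕ) : MvPolynomial (Fin (M + M)) R →ₐ[R] MvPolynomial (Fin M) R :=
  aeval (Fin.addCases X X)

lemma dg_x (i : Fin M) : dg R M (X (Fin.castAdd M i)) = X i := by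
  rw [dg, aeval_X, Fin.addCases_left]

lemma dg_y (i : Fin M) : dg R M (X (Fin.natAdd M i)) = X i := by
  rw [dg, aeval_X, Fin.addCases_right]

/-- The elements `1, x_1, …, x_M`. -/
noncomputable def ws (R : Type u) [CommRing R] (M : ℕ) : Fin (M + 1) → MvPolynomial (Fin M) R :=
  Fin.cons 1 X

lemma dg_xs (a : Fin (M + 1)) : dg R M (xs R M a) = ws R M a := by
  induction a using Fin.cases with
  | zero => rw [xs, ws, Fin.cons_zero, Fin.cons_zero, map_one]
  | succ i => rw [xs, ws, Fin.cons_succ, Fin.cons_succ, dg_x]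

lemma dg_ys (a : Fin (M + 1)) : dg R M (ys R M a) = ws R M a := by
  induction a using Fin.cases with
  | zero => rw [ys, ws, Fin.cons_zero, Fin.cons_zero, map_one]
  | succ i => rw [ys, ws, Fin.cons_succ, Fin.cons_succ, dg_y]

/-- The section. -/
noncomputable def sg (R : Type u) [CommRing R] (M : ℕ) : MvPolynomial (Fin M) R →ₐ[R] MvPolynomial (Fin (M + M)) R :=
  rename (Fin.castAdd M)

lemma dg_sg (p : MvPolynomial (Fin M) R) : dg R M (sg R M p) = p := by
  have h : (dg R M).comp (sg R M) = AlgHom.id R _ := by
    apply MvPolynomial.algHom_ext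
    intro i
    rw [AlgHom.comp_apply, sg, rename_X, dg_x]
    rfl
  exact DFunLike.congr_fun h p

lemma dg_surj : Function.Surjective (dg R M) := fun p => ⟨_, dg_sg p⟩

lemma ker_dg {I : Ideal (MvPolynomial (Fin (M + M)) R)}
    (hI : ∀ i : Fin M, X (Fin.castAdd M i) - X (Fin.natAdd M i) ∈ I) (p : MvPolynomial (Fin (M + M)) R) :
    p - sg R M (dg R M p) ∈ I := by
  have h : (Ideal.Quotient.mkₐ R I).comp ((sg R M).comp (dg R M)) = Ideal.Quotient.mkₐ R I := by
    apply MvPolynomial.algHom_ext
    intro i
    rw [AlgHom.comp_apply, AlgHom.comp_apply]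
    induction i using Fin.addCases with
    | left i => rw [dg_x, sg, rename_X]
    | right i =>
      rw [dg_y, sg, rename_X]
      exact Ideal.Quotient.eq.2 (hI i)
  have h1 := DFunLike.congr_fun h p
  exact Ideal.Quotient.eq.1 h1.symm

/-- A polynomial of degree at most two is a linear combination of the products of two of the
elements `1, x_1, …, x_M`. -/
lemma quad_form (p : MvPolynomial (Fin M) R) (hp : p.totalDegree ≤ 2) :
    ∃ t : Fin (M + 1) → Fin (M + 1) → R, p = ∑ a, ∑ b, C (t a b) * ws R M a * ws R M b := by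
  classical
  have key : ∀ (α : Fin M →₀ ℕ) (c : R), α.degree ≤ 2 → ∃ t : Fin (M + 1) → Fin (M + 1) → R,
      monomial α c = ∑ a, ∑ b, C (t a b) * ws R M a * ws R M b := by
    intro α c hα
    obtain ⟨a, b, h⟩ : ∃ a b : Fin (M + 1), monomial α (1 : R) = ws R M a * ws R M b := by
      have h0 : ∀ β : Fin M →₀ ℕ, β.degree ≤ 1 → ∃ a : Fin (M + 1), monomial β (1 : R) = ws R M a := by
        intro β hβ
        by_cases hz : β = 0
        · refine ⟨0, ?_⟩
          rw [hz, ws, Fin.cons_zero]
          rfl
        · obtain ⟨i, hi⟩ := Finsupp.ne_iff.1 hz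
          have h1 : 1 ≤ β i := Nat.one_le_iff_ne_zero.2 hi
          have h2 : Finsupp.single i 1 ≤ β := Finsupp.single_le_iff.2 h1
          obtain ⟨γ, rfl⟩ := exists_add_of_le h2
          rw [map_add, Finsupp.degree_single] at hβ
          have h3 : γ.degree = 0 := by omega
          rw [Finsupp.degree_eq_zero_iff] at h3
          refine ⟨i.succ, ?_⟩
          rw [h3, add_zero, ws, Fin.cons_succ]
          rfl
      by_cases hz : α = 0
      · obtain ⟨a, ha⟩ := h0 α (by rw [hz, map_zero]; exact Nat.zero_le _)
        refine ⟨a, 0, ?_⟩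
        rw [ha]
        simp [ws]
      · obtain ⟨i, hi⟩ := Finsupp.ne_iff.1 hz
        have h1 : 1 ≤ α i := Nat.one_le_iff_ne_zero.2 hi
        have h2 : Finsupp.single i 1 ≤ α := Finsupp.single_le_iff.2 h1
        obtain ⟨γ, rfl⟩ := exists_add_of_le h2
        rw [map_add, Finsupp.degree_single] at hα
        obtain ⟨a, ha⟩ := h0 γ (by omega)
        refine ⟨i.succ, a, ?_⟩
        rw [← ha, ws, Fin.cons_succ, X, monomial_mul, mul_one]
    refine ⟨fun a' b' => if a' = a ∧ b' = b then c else 0, ?_⟩
    rw [Finset.sum_eq_single a, Finset.sum_eq_single b]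
    · dsimp only
      rw [if_pos ⟨rfl, rfl⟩, mul_assoc, ← h, C_mul_monomial, mul_one]
    · intro b' _ hb
      dsimp only
      rw [if_neg (fun h => hb h.2), map_zero, zero_mul, zero_mul]
    · intro h
      exact absurd (Finset.mem_univ _) h
    · intro a' _ ha
      refine Finset.sum_eq_zero fun b' _ => ?_
      dsimp only
      rw [if_neg (fun h => ha h.1), map_zero, zero_mul, zero_mul]
    · intro h
      exact absurd (Finset.mem_univ _) h
  have h2 : ∀ s : Finset (Fin M →₀ ℕ), (∀ α ∈ s, α.degree ≤ 2) → ∃ t : Fin (M + 1) → Fin (M + 1) → R,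
      ∑ α ∈ s, monomial α (p.coeff α) = ∑ a, ∑ b, C (t a b) * ws R M a * ws R M b := by
    intro s
    induction s using Finset.induction_on with
    | empty =>
      intro _
      refine ⟨0, ?_⟩
      simp
    | insert α s hα ih =>
      intro h
      obtain ⟨t, ht⟩ := ih fun β hβ => h β (Finset.mem_insert_of_mem hβ)
      obtain ⟨t', ht'⟩ := key α (p.coeff α) (h α (Finset.mem_insert_self _ _))
      refine ⟨t' + t, ?_⟩
      rw [Finset.sum_insert hα, ht, ht', ← Finset.sum_add_distrib]
      refine Finset.sum_congr rfl fun a _ => ?_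
      rw [← Finset.sum_add_distrib]
      refine Finset.sum_congr rfl fun b _ => ?_
      rw [Pi.add_apply, Pi.add_apply, map_add]
      ring
  obtain ⟨t, ht⟩ := h2 p.support fun α hα => (le_totalDegree hα).trans hp
  refine ⟨t, ?_⟩
  rw [← ht]
  exact p.as_sum

/-- The tensor of a family of polynomials of degree at most two and of the diagonal. -/
noncomputable def tens {r : ℕ} (t : Fin (r + 1) → Fin (M + 1) → Fin (M + 1) → R)
    (a b : Fin (M + 1)) (j : Fin (M + r + 1)) : R :=
  Fin.addCases (m := M) (n := r + 1) (motive := fun _ => R)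
    (fun i : Fin M => if a = i.succ ∧ b = 0 then 1 else if a = 0 ∧ b = i.succ then -1 else 0)
    (fun j => t j a b) j

lemma tens_left {r : ℕ} (t : Fin (r + 1) → Fin (M + 1) → Fin (M + 1) → R) (a b : Fin (M + 1)) (i : Fin M) :
    tens t a b (Fin.castAdd (r + 1) i) =
      if a = i.succ ∧ b = 0 then 1 else if a = 0 ∧ b = i.succ then -1 else 0 :=
  Fin.addCases_left i

lemma tens_right {r : ℕ} (t : Fin (r + 1) → Fin (M + 1) → Fin (M + 1) → R) (a b : Fin (M + 1)) (j : Fin (r + 1)) :
    tens t a b (Fin.natAdd M j) = t j a b :=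
  Fin.addCases_right j

lemma tq_tens_left {r : ℕ} (t : Fin (r + 1) → Fin (M + 1) → Fin (M + 1) → R) (i : Fin M) :
    tq (tens t) (Fin.castAdd (r + 1) i) = X (Fin.castAdd M i) - X (Fin.natAdd M i) := by
  have h : ∀ a b : Fin (M + 1), C (tens t a b (Fin.castAdd (r + 1) i)) * xs R M a * ys R M b =
      (if a = i.succ then (if b = 0 then X (Fin.castAdd M i) else 0) else 0) +
      (if a = 0 then (if b = i.succ then -X (Fin.natAdd M i) else 0) else 0) := by
    intro a b
    rw [tens_left]
    have hi : i.succ ≠ 0 := Fin.succ_ne_zero i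
    by_cases ha : a = i.succ
    · subst ha
      by_cases hb : b = 0
      · subst hb
        rw [if_pos ⟨rfl, rfl⟩, if_pos rfl, if_pos rfl, if_neg hi, add_zero, map_one, one_mul, xs, ys,
          Fin.cons_succ, Fin.cons_zero, mul_one]
      · rw [if_neg (fun h => hb h.2), if_neg (fun h => hi h.1), if_pos rfl, if_neg hb, if_neg hi, map_zero,
          zero_mul, zero_mul, add_zero]
    · rw [if_neg (fun h => ha h.1), if_neg ha, zero_add]
      by_cases ha' : a = 0
      · subst ha'
        by_cases hb : b = i.succ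
        · subst hb
          rw [if_pos ⟨rfl, rfl⟩, if_pos rfl, if_pos rfl, map_neg, map_one, xs, ys, Fin.cons_succ, Fin.cons_zero,
            mul_one, neg_one_mul]
        · rw [if_neg (fun h => hb h.2), if_pos rfl, if_neg hb, map_zero, zero_mul, zero_mul]
      · rw [if_neg (fun h => ha' h.1), if_neg ha', map_zero, zero_mul, zero_mul]
  change ∑ a, ∑ b, C (tens t a b (Fin.castAdd (r + 1) i)) * xs R M a * ys R M b = _
  simp only [h, Finset.sum_add_distrib]
  rw [sub_eq_add_neg]
  congr 1
  · rw [Finset.sum_eq_single i.succ, Finset.sum_eq_single 0, if_pos rfl, if_pos rfl]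
    · intro b _ hb
      rw [if_pos rfl, if_neg hb]
    · intro h
      exact absurd (Finset.mem_univ _) h
    · intro a _ ha
      refine Finset.sum_eq_zero fun b _ => ?_
      rw [if_neg ha]
    · intro h
      exact absurd (Finset.mem_univ _) h
  · rw [Finset.sum_eq_single 0, Finset.sum_eq_single i.succ, if_pos rfl, if_pos rfl]
    · intro b _ hb
      rw [if_pos rfl, if_neg hb]
    · intro h
      exact absurd (Finset.mem_univ _) h
    · intro a _ ha
      refine Finset.sum_eq_zero fun b _ => ?_
      rw [if_neg ha]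
    · intro h
      exact absurd (Finset.mem_univ _) h

lemma dg_tq {r : ℕ} (T : Fin (M + 1) → Fin (M + 1) → Fin (r + 1) → R) (j : Fin (r + 1)) :
    dg R M (tq T j) = ∑ a, ∑ b, C (T a b j) * ws R M a * ws R M b := by
  rw [tq, map_sum]
  refine Finset.sum_congr rfl fun a _ => ?_
  rw [map_sum]
  refine Finset.sum_congr rfl fun b _ => ?_
  rw [map_mul, map_mul, dg_xs, dg_ys]
  congr 2
  exact (dg R M).commutes (T a b j)

lemma dg_tens_right {r : ℕ} (t : Fin (r + 1) → Fin (M + 1) → Fin (M + 1) → R) (j : Fin (r + 1)) :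
    dg R M (tq (tens t) (Fin.natAdd M j)) = ∑ a, ∑ b, C (t j a b) * ws R M a * ws R M b := by
  rw [dg_tq]
  refine Finset.sum_congr rfl fun a _ => Finset.sum_congr rfl fun b _ => ?_
  rw [tens_right]

end alg

section geo

variable {R : Type u} [CommRing R]

/-- The diagonal embedding of the affine space. -/
noncomputable def dgO (R : Type u) [CommRing R] (M : ℕ) : affO R M ⟶ affO R (M + M) :=
  Over.homMk (Spec.map (CommRingCat.ofHom (dg R M).toRingHom)) (by
    change Spec.map _ ≫ Spec.map _ = Spec.map _
    rw [← Spec.map_comp, ← CommRingCat.ofHom_comp]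
    congr 2
    exact RingHom.ext fun c => (dg R M).commutes c)

instance {M : ℕ} : IsClosedImmersion (dgO R M).left :=
  IsClosedImmersion.spec_of_surjective (CommRingCat.ofHom (dg R M).toRingHom) dg_surj

/-- **Every affine scheme of finite type is given by equations that are bilinear in `(1, x)` and
`(1, y)`.** -/
theorem exists_tensor [IsNoetherianRing R] (X : SchO R) (hX : IsFT X) (ha : IsAffine X.left) (N : ℕ) :
    ∃ (M r : ℕ) (T : Fin (M + 1) → Fin (M + 1) → Fin (r + 1) → R) (i : X ⟶ affO R (M + M)),
      N ≤ M ∧ IsDecomp i (cplInc (tq T)) := by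
  obtain ⟨M, r, q, i, hM, hq, hd⟩ := exists_decomp X hX ha N
  choose t ht using fun j => quad_form (q j) (hq j)
  refine ⟨M, M + r, tens t, i ≫ dgO R M, hM, ?_, inferInstance, ?_⟩
  · have := hd.closed
    change IsClosedImmersion (i.left ≫ (dgO R M).left)
    infer_instance
  · have h1 : Set.range i.left = {x : Aff R M | ∀ j, q j ∈ x.asIdeal} := by
      ext x
      have h2 : x ∈ compl q ↔ x ∉ Set.range i.left := by
        have h2 : Set.range (compl q).ι = (Set.range i.left)ᶜ := hd.range
        rw [Scheme.Opens.range_ι] at h2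
        exact Set.ext_iff.1 h2 x
      rw [← not_iff_not, ← h2]
      exact (mem_compl q).trans not_forall.symm
    have h3 : Set.range (i ≫ dgO R M).left = {y : Aff R (M + M) | ∀ j, tq (tens t) j ∈ y.asIdeal} := by
      have h4 : Set.range (i ≫ dgO R M).left = (dgO R M).left '' Set.range i.left := by
        rw [← Set.range_comp]
        rfl
      rw [h4, h1]
      ext y
      constructor
      · rintro ⟨x, hx, rfl⟩ j
        change dg R M (tq (tens t) j) ∈ x.asIdeal
        induction j using Fin.addCases (m := M) (n := r + 1) with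
        | left j =>
          have h5 := tq_tens_left t j
          rw [show tq (tens t) (Fin.castAdd (r + 1) j) = _ from h5, map_sub, dg_x, dg_y, sub_self]
          exact x.asIdeal.zero_mem
        | right j =>
          have h5 := dg_tens_right t j
          rw [← ht j] at h5
          rw [show dg R M (tq (tens t) (Fin.natAdd M j)) = _ from h5]
          exact hx j
      · intro hy
        have hI : ∀ i : Fin M, MvPolynomial.X (Fin.castAdd M i) - MvPolynomial.X (Fin.natAdd M i) ∈ y.asIdeal := by
          intro i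
          rw [← tq_tens_left t i]
          exact hy _
        have hker : ((RingHom.ker (dg R M).toRingHom : Ideal _) : Set (MvPolynomial (Fin (M + M)) R)) ⊆ y.asIdeal := by
          intro p hp
          have h6 := ker_dg hI p
          have h7 : dg R M p = 0 := hp
          rwa [h7, map_zero, sub_zero] at h6
        have h8 : y ∈ Set.range (PrimeSpectrum.comap (dg R M).toRingHom) := by
          rw [range_comap_of_surjective _ _ dg_surj]
          exact hker
        obtain ⟨x, rfl⟩ := h8
        refine ⟨x, fun j => ?_, rfl⟩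
        have h9 := hy (Fin.natAdd M j)
        have h10 : dg R M (tq (tens t) (Fin.natAdd M j)) ∈ x.asIdeal := h9
        rw [dg_tens_right, ← ht j] at h10
        exact h10
    rw [h3]
    change Set.range (compl (tq (tens t))).ι = _
    rw [Scheme.Opens.range_ι]
    ext x
    exact (mem_compl _).trans not_forall.symm

end geo

end Q54.CC
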