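import Pool.Agent.Q54.CC.Main
import Pool.Agent.Q54.CC.Ts

/-!
# The hypersurfaces `∑ T_{abc} x_a y_b z_c = 0` with `x_0 = y_0 = 1`
-/

set_option autoImplicit false

universe u v w x

namespace Q54.CC

open Q54.CU CategoryTheory Limits AlgebraicGeometry

variable {k : Type u} [Field k] {𝓜 : Type w} [Category.{v} 𝓜] [Abelian 𝓜] {I : 𝓜}
  {D : CycData.{u, v, w, x} k 𝓜 I}

/-- The object `N` is zero or the homology `H_(2 n + s)(X, K(n))` of a variety for some `s < 0`. The weights of such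
objects are positive. -/
def IsPos (D : CycData.{u, v, w, x} k 𝓜 I) (N : 𝓜) : Prop :=
  IsZero N ∨ ∃ (n s : ℤ) (X : SchO k), IsVar X ∧ s < 0 ∧ Nonempty (N ≅ D.H n s X)

/-- The cycle groups of `X` in dimension `n` and of `Y` in dimension `n'` are isomorphic; the homology of `X` is the
direct sum of the homology of `Y` and of an object with positive weights; and these isomorphisms are compatible with the
cycle class maps. -/
def SameP (D : CycData.{u, v, w, x} k 𝓜 I) (n : ℤ) (X : SchO k) (n' : ℤ) (Y : SchO k) : Prop :=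
  ∃ (N : 𝓜) (a : D.A n 0 X ≃+ D.A n' 0 Y) (e : D.H n 0 X ≅ dsum (D.H n' 0 Y) N),
    IsPos D N ∧ ∀ x, D.c n 0 X x ≫ e.hom = pair (D.c n' 0 Y (ap a x)) 0

lemma IsPos.hom (hD : IsCycTheory D) {N : 𝓜} (h : IsPos D N) (f : I ⟶ N) : f = 0 := by
  rcases h with h | ⟨n, s, X, hX, hs, ⟨e⟩⟩
  · exact h.eq_of_tgt _ _
  · have h1 := hD.weights n s X hX hs (f ≫ e.hom)
    rw [← cancel_mono e.hom, h1, zero_comp]

lemma SameP.same (hD : IsCycTheory D) {n n' : ℤ} {X Y : SchO k} (h : SameP D n X n' Y) : Same D n X n' Y := by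
  obtain ⟨N, a, e, hN, h⟩ := h
  exact ⟨N, a, e, hN.hom hD, h⟩

lemma cone_sameP (hD : IsCycTheory D) {M r : ℕ} (q : Fin (r + 1) → MvPolynomial (Fin M) k) {Z : SchO k}
    (hZ : IsVar Z) (i : Z ⟶ affO k M) (hd : IsDecomp i (cplInc q)) {n : ℤ} (hn : n + 1 < M) :
    SameP D (n + r + 1) (hypO q 0) n Z := by
  obtain ⟨a, e, h⟩ := cone_same hD q hZ i hd hn
  exact ⟨_, a, e, Or.inr ⟨n + 1, -1, Z, hZ, by omega, ⟨Iso.refl _⟩⟩, h⟩

open ZeroObject in
lemma HasIso.sameP {n n' : ℤ} {X Y : SchO k} (h : HasIso D n 0 X n' 0 Y) : SameP D n X n' Y := by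
  obtain ⟨a, e, h⟩ := h
  have hz : IsZero (0 : 𝓜) := isZero_zero 𝓜
  refine ⟨0, a, e ≪≫ isoBiprodZero hz, Or.inl hz, fun x => ?_⟩
  rw [h]
  apply biprod.hom_ext <;> simp

/-- The hypersurface `∑ T_{abc} x_a y_b z_c = 0` in the affine space, where `x_0 = y_0 = 1`. -/
noncomputable def tenO {M r : ℕ} (T : Fin (M + 1) → Fin (M + 1) → Fin (r + 1) → k) : SchO k := hypO (tq T) 0

lemma isVar_tenO {M r : ℕ} (T : Fin (M + 1) → Fin (M + 1) → Fin (r + 1) → k) : IsVar (tenO T) :=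
  isVar_hypO _ 0

lemma isAffine_tenO {M r : ℕ} (T : Fin (M + 1) → Fin (M + 1) → Fin (r + 1) → k) : IsAffine (tenO T).left :=
  (inferInstance : IsAffine (HypSch (tq T) (0 : k)))

/-- **Varieties and tensors.** A property `Q n X` of the cycles of dimension `n` on `X` that depends only on the
cycle class map and on the homology up to summands of positive weights holds for all quasi-projective schemes if it
holds for the hypersurfaces given by tensors. -/
theorem main_tensor (hD : IsCycTheory D) (Q : ℤ → SchO k → Prop)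
    (hQ : ∀ n X n' Y, SameP D n X n' Y → (Q n X ↔ Q n' Y)) :
    List.TFAE
      [∀ (M r : ℕ) (T : Fin (M + 1) → Fin (M + 1) → Fin (r + 1) → k) (n : ℤ), Q n (tenO T),
        ∀ X : SchO k, IsVar X → IsAffine X.left → ∀ n : ℤ, Q n X,
        ∀ X : SchO k, IsVar X → HasAffineTorsor X → ∀ n : ℤ, Q n X] := by
  tfae_have 1 → 2 := by
    intro h X hX ha n
    obtain ⟨M, r, T, i, hM, hd⟩ := exists_tensor X hX.ft ha (n + 2).toNat
    have hn : n + 1 < (M + M : ℕ) := by omega
    exact (hQ _ _ _ _ (cone_sameP hD (tq T) hX i hd hn)).1 (h M r T _)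
  tfae_have 2 → 1 := fun h M r T n => h (tenO T) (isVar_tenO T) (isAffine_tenO T) n
  tfae_have 2 → 3 := by
    rintro h X hX ⟨T, r, p, hT, ha, hp⟩ n
    exact (hQ _ _ _ _ (hD.homotopy r p hT hX hp n 0).sameP).2 (h T hT ha _)
  tfae_have 3 → 2 := fun h X hX ha n => h X hX (hasAffineTorsor_of_affine hX ha) n
  tfae_finish

/-- The eigenvalue one is semisimple: with `ι : I ⟶ J` the inclusion of the invariants of the nontrivial extension of
the trivial representation by itself, a morphism `J ⟶ V` is the same as a vector `v` with `(F - 1)² v = 0`, and `ι`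
is mapped to `(F - 1) v`. -/
def SemiOne {J : 𝓜} (ι : I ⟶ J) (V : 𝓜) : Prop := ∀ f : J ⟶ V, ι ≫ f = 0

lemma SameP.semi (hD : IsCycTheory D) {n n' : ℤ} {X Y : SchO k} (h : SameP D n X n' Y) {J : 𝓜} (ι : I ⟶ J) :
    SemiOne ι (D.H n 0 X) ↔ SemiOne ι (D.H n' 0 Y) := by
  obtain ⟨N, a, e, hN, -⟩ := h
  constructor
  · intro h f
    have h1 := h (f ≫ biprod.inl ≫ e.inv)
    have h2 : (ι ≫ f ≫ biprod.inl ≫ e.inv) ≫ e.hom ≫ biprod.fst = ι ≫ f := by simp
    rw [← h2, h1, zero_comp]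
  · intro h f
    have h1 : (ι ≫ f ≫ e.hom) ≫ biprod.fst = 0 := by
      rw [Category.assoc]
      exact h ((f ≫ e.hom) ≫ biprod.fst)
    have h2 : (ι ≫ f ≫ e.hom) ≫ biprod.snd = 0 := hN.hom hD _
    have h3 : ι ≫ f ≫ e.hom = 0 := by
      apply biprod.hom_ext
      · rw [h1, zero_comp]
      · rw [h2, zero_comp]
    rw [← cancel_mono e.hom, Category.assoc, h3, zero_comp]

end Q54.CC
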