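import Pool.Agent.Q54.CC.Main

/-!
# Higher Chow groups and smooth affine cubic hypersurfaces
-/

set_option autoImplicit false

universe u v w x

namespace Q54.CC

open Q54.CU CategoryTheory Limits AlgebraicGeometry

variable {k : Type u} [Field k] {𝓜 : Type w} [Category.{v} 𝓜] [Abelian 𝓜] {I : 𝓜}
  {D : CycData.{u, v, w, x} k 𝓜 I}

/-- The closed subscheme `q_0 = … = q_r = 0` of the affine space. -/
lemma exists_locus {M r : ℕ} (q : Fin (r + 1) → MvPolynomial (Fin M) k) : ∃ (V : SchO k)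
    (i : V ⟶ affO k M), IsVar V ∧ IsAffine V.left ∧ IsDecomp i (cplInc q) := by
  obtain ⟨W, g, hg, hgr⟩ := exists_closed (Z := Aff k M)
    ⟨((compl q : (Aff k M).Opens) : Set (Aff k M))ᶜ, (compl q).isOpen.isClosed_compl⟩
  let V : SchO k := Over.mk (g ≫ affStr k M)
  let i : V ⟶ affO k M := Over.homMk g rfl
  have hi : IsClosedImmersion i.left := hg
  have ha : IsAffine V.left := by
    have h1 : IsAffineHom g := inferInstance
    have h2 : IsAffine (Aff k M) := inferInstance
    exact isAffine_of_isAffineHom g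
  refine ⟨V, i, .of_affine (isFT_affO.of_closed i hi) ha, ha, hi, inferInstance, ?_⟩
  change Set.range (compl q).ι = (Set.range g)ᶜ
  rw [hgr, Scheme.Opens.range_ι]
  exact (compl_compl _).symm

variable (Q : ℤ → ℤ → SchO k → Prop)

/-- The property `Q` for the groups `CH^j(E, s)` with `j > s` of all hypersurfaces `∑ λ_j q_j(x) = 1`. -/
def CubRow (s : ℤ) : Prop :=
  ∀ (M r : ℕ) (q : Fin (r + 1) → MvPolynomial (Fin M) k), (∀ j, (q j).totalDegree ≤ 2) →
    ∀ j : ℤ, s < j → Q (M + r - j) s (hypO q 1)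

/-- The property `Q` for the groups `CH_n(X, s)` of all varieties `X` over which there is an affine bundle with affine
total space. -/
def TorRow (s : ℤ) : Prop := ∀ X : SchO k, IsVar X → HasAffineTorsor X → ∀ n : ℤ, Q n s X

/-- The property `Q` for the groups `CH_n(X, s)` of all affine varieties `X`. -/
def AffRow (s : ℤ) : Prop := ∀ X : SchO k, IsVar X → IsAffine X.left → ∀ n : ℤ, Q n s X

variable {Q} (hD : IsCycTheory D)
  (hQ : ∀ n s X n' s' Y, HasIso D n s X n' s' Y → (Q n s X ↔ Q n' s' Y))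

include hD hQ

theorem torRow_iff (s : ℤ) : TorRow Q s ↔ AffRow Q s := by
  constructor
  · exact fun h X hX ha n => h X hX (hasAffineTorsor_of_affine hX ha) n
  · rintro h X hX ⟨T, r, p, hT, ha, hp⟩ n
    exact (hQ _ _ _ _ _ _ (hD.homotopy r p hT hX hp n s)).2 (h T hT ha _)

theorem cubRow_iff {s : ℤ} (hs : 0 ≤ s) : CubRow Q (s + 1) ↔ TorRow Q s := by
  rw [torRow_iff hD hQ]
  constructor
  · intro h X hX ha n
    obtain ⟨M, r, q, i, hM, hq, hd⟩ := exists_decomp X hX.ft ha (n + s + 2).toNat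
    have h1 : n + s + 1 < M := by omega
    have h2 := smooth_iso hD q i hd h1 (by omega) (by omega)
    have h3 := h M r q hq (M - n) (by omega)
    rw [show (M : ℤ) + r - (M - n) = n + r by omega] at h3
    exact (hQ _ _ _ _ _ _ h2).1 h3
  · intro h M r q _ j hj
    obtain ⟨V, i, hV, ha, hd⟩ := exists_locus q
    have h2 := smooth_iso hD q i hd (n := M - j) (s := s) (by omega) (by omega) (by omega)
    have h3 := (hQ _ _ _ _ _ _ h2).2 (h V hV ha (M - j))
    rwa [show (M : ℤ) - j + r = M + r - j by omega] at h3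

omit hD hQ in
lemma cubRow_of_torRow {s : ℤ} (h : TorRow Q s) : CubRow Q s := fun _ _ q _ _ _ =>
  h (hypO q 1) (isVar_hypO q 1) (hasAffineTorsor_of_affine (isVar_hypO q 1)
    (inferInstance : IsAffine (HypSch q (1 : k)))) _

theorem cubRow_down {s : ℤ} (hs : 0 ≤ s) (m : ℕ) (h : CubRow Q (s + m + 1)) : TorRow Q s := by
  induction m with
  | zero =>
    refine (cubRow_iff hD hQ hs).1 ?_
    rwa [Nat.cast_zero, add_zero] at h
  | succ m ih =>
    refine ih (cubRow_of_torRow ((cubRow_iff hD hQ (by omega)).1 ?_))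
    rw [show s + m + 1 + 1 = s + ((m + 1 : ℕ) : ℤ) + 1 by push_cast; ring]
    exact h

/-- **Higher Chow groups of all varieties and smooth affine cubic hypersurfaces.** -/
theorem rows_tfae : List.TFAE
    [∀ s : ℤ, 0 ≤ s → TorRow Q s,
      ∀ s : ℤ, 0 < s → CubRow Q s,
      ∀ s₀ : ℤ, ∃ s : ℤ, s₀ < s ∧ CubRow Q s] := by
  tfae_have 1 → 2 := fun h s hs => cubRow_of_torRow (h s hs.le)
  tfae_have 2 → 3 := fun h s₀ => ⟨max s₀ 0 + 1, by omega, h _ (by omega)⟩
  tfae_have 3 → 1 := by
    intro h s hs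
    obtain ⟨t, ht, h1⟩ := h (s + 1)
    refine cubRow_down hD hQ hs (t - s - 1).toNat ?_
    rwa [show s + ((t - s - 1).toNat : ℤ) + 1 = t by omega]
  tfae_finish

end Q54.CC
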