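import Mathlib

/-!
# Products with the torus and principal open subschemes
-/

set_option autoImplicit false

universe u

namespace Q54.CC

open CategoryTheory AlgebraicGeometry Polynomial

section ring

variable (B : Type u) [CommRing B]

/-- The ring `B[t, 1/t]`. -/
abbrev Tor : Type u := Localization.Away (X : B[X])

/-- The function `t`. -/
noncomputable def tT : Tor B := algebraMap B[X] (Tor B) X

lemma tT_unit : IsUnit (tT B) := IsLocalization.Away.algebraMap_isUnit _

variable {B}

/-- The constants. -/
noncomputable def cT : B →+* Tor B := (algebraMap B[X] (Tor B)).comp C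

variable {T : Type u} [CommRing T]

/-- Homomorphisms from `B[t, 1/t]`. -/
noncomputable def liftT (g : B →+* T) (w : T) (hw : IsUnit w) : Tor B →+* T :=
  IsLocalization.Away.lift (X : B[X]) (g := eval₂RingHom g w) (by
    rw [coe_eval₂RingHom, eval₂_X]
    exact hw)

lemma liftT_t (g : B →+* T) (w : T) (hw : IsUnit w) : liftT g w hw (tT B) = w := by
  rw [liftT, tT, IsLocalization.Away.lift_eq, coe_eval₂RingHom, eval₂_X]

lemma liftT_c (g : B →+* T) (w : T) (hw : IsUnit w) (b : B) : liftT g w hw (cT b) = g b := by
  rw [liftT, cT, RingHom.comp_apply, IsLocalization.Away.lift_eq, coe_eval₂RingHom, eval₂_C]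

lemma tor_ext {g g' : Tor B →+* T} (h1 : g.comp cT = g'.comp cT) (h2 : g (tT B) = g' (tT B)) : g = g' := by
  apply IsLocalization.ringHom_ext (Submonoid.powers (X : B[X]))
  apply Polynomial.ringHom_ext'
  · exact h1
  · exact h2

end ring

section away

variable {P L : Type u} [CommRing P] [CommRing L] (f : P) (φ : P →+* L) (e : Localization.Away f ≃+* L)
  (he : ∀ a, e (algebraMap P _ a) = φ a)

include he in
/-- Principal open subschemes. -/
theorem away_open : IsOpenImmersion (Spec.map (CommRingCat.ofHom φ)) ∧
    Set.range (Spec.map (CommRingCat.ofHom φ)) = (PrimeSpectrum.basicOpen f : Set (PrimeSpectrum P)) := by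
  have hopen : IsOpenImmersion (Spec.map (CommRingCat.ofHom (algebraMap P (Localization.Away f)))) :=
    Scheme.isOpenImmersion_SpecMap_localizationAway (R := CommRingCat.of P) f
  have hiso : IsIso (Spec.map (CommRingCat.ofHom (e : Localization.Away f →+* L))) := by
    have h2 : IsIso (CommRingCat.ofHom (e : Localization.Away f →+* L)) :=
      (inferInstance : IsIso e.toCommRingCatIso.hom)
    infer_instance
  have hfac : Spec.map (CommRingCat.ofHom φ) = Spec.map (CommRingCat.ofHom (e : Localization.Away f →+* L)) ≫
      Spec.map (CommRingCat.ofHom (algebraMap P (Localization.Away f))) := by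
    rw [← Spec.map_comp, ← CommRingCat.ofHom_comp]
    congr 2
    exact RingHom.ext fun a => (he a).symm
  refine ⟨?_, ?_⟩
  · rw [hfac]
    infer_instance
  · have hs : Function.Surjective (Spec.map (CommRingCat.ofHom (e : Localization.Away f →+* L))) :=
      (Spec.map (CommRingCat.ofHom (e : Localization.Away f →+* L))).homeomorph.surjective
    have h1 : Set.range (Spec.map (CommRingCat.ofHom φ)) =
        Set.range (Spec.map (CommRingCat.ofHom (algebraMap P (Localization.Away f)))) := by
      ext x
      constructor
      · rintro ⟨y, rfl⟩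
        exact ⟨Spec.map (CommRingCat.ofHom (e : Localization.Away f →+* L)) y, by rw [hfac]; rfl⟩
      · rintro ⟨y, rfl⟩
        obtain ⟨z, rfl⟩ := hs y
        exact ⟨z, by rw [hfac]; rfl⟩
    rw [h1]
    exact PrimeSpectrum.localization_away_comap_range (Localization.Away f) f

/-- Closed subschemes given by one equation. -/
theorem quot_closed : IsClosedImmersion (Spec.map (CommRingCat.ofHom (Ideal.Quotient.mk (Ideal.span {f})))) ∧
    Set.range (Spec.map (CommRingCat.ofHom (Ideal.Quotient.mk (Ideal.span {f})))) =
      (PrimeSpectrum.basicOpen f : Set (PrimeSpectrum P))ᶜ := by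
  refine ⟨IsClosedImmersion.spec_of_surjective _ Ideal.Quotient.mk_surjective, ?_⟩
  have h1 : Set.range (Spec.map (CommRingCat.ofHom (Ideal.Quotient.mk (Ideal.span {f})))) =
      Set.range (PrimeSpectrum.comap (Ideal.Quotient.mk (Ideal.span {f}))) := rfl
  rw [h1, range_comap_of_surjective _ _ Ideal.Quotient.mk_surjective, Ideal.mk_ker,
    PrimeSpectrum.zeroLocus_span, PrimeSpectrum.basicOpen_eq_zeroLocus_compl, compl_compl]

end away

end Q54.CC
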