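import Pool.Agent.Q54.CC.Fml
import Pool.Agent.Q54.CC.Tor

/-!
# The complement of the hypersurface `∑ λ_j q_j(x) = 0`
-/

set_option autoImplicit false

universe u

namespace Q54.CC

open Q54.CU CategoryTheory AlgebraicGeometry

section ring

variable {R : Type u} [CommRing R] {M r : ℕ} (q : Fin (r + 1) → MvPolynomial (Fin M) R)

/-- The polynomial ring in the variables `x` and `λ`. -/
abbrev PR (R : Type u) [CommRing R] (M r : ℕ) : Type u := MvPolynomial (Fin M ⊕ Fin (r + 1)) R

/-- The inclusion of the functions of `x`. -/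
noncomputable def rn (R : Type u) [CommRing R] (M r : ℕ) : MvPolynomial (Fin M) R →+* PR R M r :=
  (MvPolynomial.rename (R := R) (Sum.inl : Fin M → Fin M ⊕ Fin (r + 1))).toRingHom

lemma rn_apply (a : MvPolynomial (Fin M) R) : rn R M r a = MvPolynomial.rename Sum.inl a := rfl

lemma rn_C (a : R) : rn R M r (MvPolynomial.C a) = MvPolynomial.C a := by
  rw [rn_apply, MvPolynomial.rename_C]

lemma rn_X (i : Fin M) : rn R M r (MvPolynomial.X i) = MvPolynomial.X (Sum.inl i) := by
  rw [rn_apply, MvPolynomial.rename_X]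

lemma hypPoly_zero : hypPoly q (0 : R) = ∑ j, MvPolynomial.X (Sum.inr j) * rn R M r (q j) := by
  rw [hypPoly, map_zero, sub_zero]
  rfl

/-- The map `(x, λ, t) ↦ (x, t λ)`. -/
noncomputable def toL : PR R M r →+* Tor (HypRing q (1 : R)) :=
  hypEval (cT.comp (toHyp q 1)) fun j => tT (HypRing q (1 : R)) * cT (lam q 1 j)

lemma toL_rn (a : MvPolynomial (Fin M) R) : toL q (rn R M r a) = cT (toHyp q 1 a) :=
  hypEval_rename _ _ _

lemma toL_inr (j : Fin (r + 1)) : toL q (MvPolynomial.X (Sum.inr j)) = tT _ * cT (lam q 1 j) :=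
  hypEval_inr _ _ _

lemma toL_F : toL q (hypPoly q 0) = tT _ := by
  rw [hypPoly_zero, map_sum]
  have h1 : ∀ j, toL q (MvPolynomial.X (Sum.inr j) * rn R M r (q j)) =
      tT _ * cT (lam q 1 j * toHyp q 1 (q j)) := by
    intro j
    rw [map_mul, toL_inr, toL_rn, map_mul, mul_assoc]
  simp only [h1]
  rw [← Finset.mul_sum, ← map_sum, sum_lam, map_one, map_one, map_one, mul_one]

section inverse

variable {P : Type u} [CommRing P] (a : PR R M r →+* P) (v : P) (hv : a (hypPoly q 0) * v = 1)

include hv in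
lemma sum_v : ∑ j, (a (MvPolynomial.X (Sum.inr j)) * v) * (a.comp (rn R M r)) (q j) =
    (a.comp (rn R M r)) (MvPolynomial.C 1) := by
  rw [hypPoly_zero, map_sum, Finset.sum_mul] at hv
  rw [map_one, map_one, ← hv]
  refine Finset.sum_congr rfl fun j _ => ?_
  rw [map_mul, RingHom.comp_apply]
  ring

/-- The map `(x, λ) ↦ (x, λ / F)`. -/
noncomputable def gg : HypRing q (1 : R) →+* P :=
  hypLift q 1 (a.comp (rn R M r)) (fun j => a (MvPolynomial.X (Sum.inr j)) * v) (sum_v q a v hv)

lemma gg_toHyp (b : MvPolynomial (Fin M) R) : gg q a v hv (toHyp q 1 b) = a (rn R M r b) :=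
  hypLift_toHyp _ _

lemma gg_lam (j : Fin (r + 1)) : gg q a v hv (lam q 1 j) = a (MvPolynomial.X (Sum.inr j)) * v :=
  hypLift_lam _ _

/-- The inverse map. -/
noncomputable def fromL : Tor (HypRing q (1 : R)) →+* P :=
  liftT (gg q a v hv) (a (hypPoly q 0)) (IsUnit.of_mul_eq_one _ hv)

lemma fromL_t : fromL q a v hv (tT _) = a (hypPoly q 0) := liftT_t _ _ _

lemma fromL_c (b : HypRing q (1 : R)) : fromL q a v hv (cT b) = gg q a v hv b := liftT_c _ _ _ _

lemma fromL_toL : (fromL q a v hv).comp (toL q) = a := by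
  apply MvPolynomial.ringHom_ext
  · intro b
    rw [RingHom.comp_apply, ← rn_C, toL_rn, fromL_c, gg_toHyp]
  · rintro (i | j)
    · rw [RingHom.comp_apply, ← rn_X, toL_rn, fromL_c, gg_toHyp]
    · rw [RingHom.comp_apply, toL_inr, map_mul, fromL_t, fromL_c, gg_lam]
      linear_combination (a (MvPolynomial.X (Sum.inr j))) * hv

/-- The other composite. -/
lemma toL_fromL (b : P →+* Tor (HypRing q (1 : R))) (hb : ∀ c, b (a c) = toL q c) :
    b.comp (fromL q a v hv) = RingHom.id _ := by
  have h1 : tT _ * b v = 1 := by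
    rw [← toL_F, ← hb, ← map_mul, hv, map_one]
  apply tor_ext
  · apply hyp_hom_ext
    · apply RingHom.ext
      intro c
      change b (fromL q a v hv (cT (toHyp q 1 c))) = cT (toHyp q 1 c)
      rw [fromL_c, gg_toHyp, hb, toL_rn]
    · intro j
      change b (fromL q a v hv (cT (lam q 1 j))) = cT (lam q 1 j)
      rw [fromL_c, gg_lam, map_mul, hb, toL_inr]
      linear_combination (cT (lam q 1 j)) * h1
  · change b (fromL q a v hv (tT _)) = tT _
    rw [fromL_t, hb, toL_F]

end inverse

/-- The principal open subset `F ≠ 0` is the product of the hypersurface `F = 1` and the torus. -/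
theorem exists_eqL : ∃ e : Localization.Away (hypPoly q (0 : R)) ≃+* Tor (HypRing q (1 : R)),
    ∀ a, e (algebraMap (PR R M r) _ a) = toL q a := by
  let P := Localization.Away (hypPoly q (0 : R))
  let a : PR R M r →+* P := algebraMap (PR R M r) P
  let v : P := IsLocalization.Away.invSelf (hypPoly q (0 : R))
  have hv : a (hypPoly q 0) * v = 1 := IsLocalization.Away.mul_invSelf (S := P) (hypPoly q (0 : R))
  let b : P →+* Tor (HypRing q (1 : R)) := IsLocalization.Away.lift (hypPoly q (0 : R)) (g := toL q) (by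
    rw [toL_F]
    exact tT_unit _)
  have hb : ∀ c, b (a c) = toL q c := fun c => IsLocalization.Away.lift_eq _ _ _
  have h1 := toL_fromL q a v hv b hb
  have h2 : (fromL q a v hv).comp b = RingHom.id P := by
    apply IsLocalization.ringHom_ext (Submonoid.powers (hypPoly q (0 : R)))
    apply RingHom.ext
    intro c
    change fromL q a v hv (b (a c)) = a c
    rw [hb]
    exact DFunLike.congr_fun (fromL_toL q a v hv) c
  exact ⟨RingEquiv.ofRingHom b (fromL q a v hv) h1 h2, hb⟩

end ring

section schemes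

variable {k : Type u} [Field k] {M r : ℕ} (q : Fin (r + 1) → MvPolynomial (Fin M) k)

/-- The affine space with coordinates `x` and `λ`. -/
noncomputable def amb (k : Type u) [Field k] (M r : ℕ) : SchO k := specO k (PR k M r)

lemma hypO_eq (t : k) : hypO q t = specO k (HypRing q t) := by
  refine congrArg Over.mk ?_
  rw [← Spec.map_comp, ← CommRingCat.ofHom_comp]
  congr 2
  ext c
  change toHyp q t (MvPolynomial.C c) = Ideal.Quotient.mk _ (MvPolynomial.C c)
  rw [toHyp_apply, MvPolynomial.rename_C]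

/-- Morphisms of affine schemes over `k`. -/
noncomputable def homO {B C : Type u} [CommRing B] [Algebra k B] [CommRing C] [Algebra k C] (f : B →+* C)
    (hf : ∀ c, f (algebraMap k B c) = algebraMap k C c) : specO k C ⟶ specO k B :=
  Over.homMk (Spec.map (CommRingCat.ofHom f)) (by
    change Spec.map _ ≫ Spec.map _ = Spec.map _
    rw [← Spec.map_comp, ← CommRingCat.ofHom_comp]
    congr 2
    exact RingHom.ext hf)

/-- The closed immersion of the hypersurface. -/
noncomputable def inC : specO k (HypRing q (0 : k)) ⟶ amb k M r :=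
  homO (Ideal.Quotient.mk (Ideal.span {hypPoly q (0 : k)})) fun _ => rfl

/-- The open immersion of the complement. -/
noncomputable def inO : torO k (HypRing q (1 : k)) ⟶ amb k M r :=
  homO (toL q) fun c => by
    have h1 : algebraMap k (PR k M r) c = rn k M r (MvPolynomial.C c) := (rn_C c).symm
    rw [h1, toL_rn, toHyp_apply, MvPolynomial.rename_C]
    rfl

theorem isDecomp_cone : IsDecomp (inC q) (inO q) := by
  obtain ⟨e, he⟩ := exists_eqL q
  obtain ⟨h1, h2⟩ := away_open (hypPoly q (0 : k)) (toL q) e he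
  obtain ⟨h3, h4⟩ := quot_closed (hypPoly q (0 : k))
  refine ⟨h3, h1, ?_⟩
  have h5 : Set.range (inO q).left = (PrimeSpectrum.basicOpen (hypPoly q (0 : k)) : Set (PrimeSpectrum _)) := h2
  have h6 : Set.range (inC q).left = (PrimeSpectrum.basicOpen (hypPoly q (0 : k)) : Set (PrimeSpectrum _))ᶜ := h4
  rw [h5, h6]
  exact (compl_compl _).symm

/-- The structure morphism. -/
noncomputable def ambTo (k : Type u) [Field k] (M r : ℕ) : amb k M r ⟶ pt k :=
  Over.homMk (Spec.map (CommRingCat.ofHom (algebraMap k (PR k M r)))) (by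
    change Spec.map (CommRingCat.ofHom (algebraMap k (PR k M r))) ≫ 𝟙 _ = _
    rw [Category.comp_id]
    rfl)

lemma isVar_spec (B : Type u) [CommRing B] [Algebra k B] (h : Algebra.FiniteType k B) : IsVar (specO k B) := by
  refine .of_affine ⟨?_, ?_⟩ (inferInstance : IsAffine (Spec (CommRingCat.of B)))
  · change LocallyOfFiniteType (Spec.map (CommRingCat.ofHom (algebraMap k B)))
    rw [HasRingHomProperty.Spec_iff (P := @LocallyOfFiniteType)]
    exact (RingHom.finiteType_algebraMap (A := k) (B := B)).2 h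
  · change QuasiCompact (Spec.map (CommRingCat.ofHom (algebraMap k B)))
    infer_instance

lemma isVar_amb : IsVar (amb k M r) := isVar_spec _ inferInstance

lemma ambTo_bundle : IsAffineBundle (M + (r + 1)) (ambTo k M r).left := by
  intro b
  let σ : Fin M ⊕ Fin (r + 1) ≃ Fin (M + (r + 1)) := finSumFinEquiv
  let e : PR k M r ≃+* MvPolynomial (Fin (M + (r + 1))) k := (MvPolynomial.renameEquiv k σ).toRingEquiv
  have he : IsIso (Spec.map (CommRingCat.ofHom (e : PR k M r →+* MvPolynomial (Fin (M + (r + 1))) k))) := by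
    have h2 : IsIso (CommRingCat.ofHom (e : PR k M r →+* MvPolynomial (Fin (M + (r + 1))) k)) :=
      (inferInstance : IsIso e.toCommRingCatIso.hom)
    infer_instance
  let A : CommRingCat.{u} := CommRingCat.of k
  let j : Spec A ⟶ (pt k).left := 𝟙 (Spec A)
  have hj : IsIso j := (inferInstance : IsIso (𝟙 (Spec A)))
  have hw : Spec.map (CommRingCat.ofHom (e : PR k M r →+* MvPolynomial (Fin (M + (r + 1))) k)) ≫
      Spec.map (CommRingCat.ofHom (algebraMap k (PR k M r))) =
      Spec.map (CommRingCat.ofHom (MvPolynomial.C : k →+* MvPolynomial (Fin (M + (r + 1))) k)) ≫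
        𝟙 (Spec (CommRingCat.of k)) := by
    rw [Category.comp_id, ← Spec.map_comp, ← CommRingCat.ofHom_comp]
    congr 2
    refine RingHom.ext fun c => ?_
    change MvPolynomial.rename σ (MvPolynomial.C c) = MvPolynomial.C c
    rw [MvPolynomial.rename_C]
  exact ⟨A, j, Spec.map (CommRingCat.ofHom (e : PR k M r →+* MvPolynomial (Fin (M + (r + 1))) k)),
    inferInstance, ⟨b, rfl⟩, @IsPullback.of_horiz_isIso _ _ _ _ _ _ _ _ _ _ he hj ⟨hw⟩⟩

end schemes

end Q54.CC
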